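import Pool.Agent.L0h22.UY.Stm

/-!
# Board UY, module TYP

Almost all the sets of primes are typical.
-/

set_option autoImplicit false
set_option linter.all false

open Polynomial IsDedekindDomain Filter
open scoped Classical

namespace Pool.Agent.L0h89.UY

open Pool.Agent.L0h22.AS Pool.Agent.L0h22.TC Pool.Agent.L0h22.SL Pool.Agent.L0h22.UY

theorem t_TYP (h1 : S_LOW) (h2 : S_UPP) (h3 : S_WINB) : S_TYP := by
  intro k _ _ hk S₀ hS₀ n₁ ε hε
  have hε3 : (0 : ℝ) < ε / 3 := by linarith
  have hlog : ∀ᶠ N : ℕ in atTop, (10 * n₁ : ℝ) ≤ Real.log N :=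
    (Real.tendsto_log_atTop.comp tendsto_natCast_atTop_atTop).eventually_ge_atTop _
  filter_upwards [h1 k hk S₀ hS₀ (ε / 3) hε3, h2 k S₀ (ε / 3) hε3, h3 k S₀ (ε / 3) hε3, hlog]
    with N e1 e2 e3 e4
  have hsub : ((Sub k S₀ N).filter fun S => ¬ Typ n₁ S) ⊆
      (((Sub k S₀ N).filter fun S => (S.card : ℝ) < Real.log N / 10) ∪
        ((Sub k S₀ N).filter fun S => 4 * Real.log N < (S.card : ℝ))) ∪
      ((Sub k S₀ N).filter fun S => ∃ t ∈ S, Real.log N / 1000 <
        ((S.filter fun s => s.natDegree ≤ t.natDegree ∧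
          (t.natDegree : ℝ) < 4 * Real.log N * s.natDegree).card : ℝ)) := by
    intro S hS
    rw [Finset.mem_filter] at hS
    obtain ⟨hS, hT⟩ := hS
    rw [Finset.mem_union, Finset.mem_union, Finset.mem_filter, Finset.mem_filter,
      Finset.mem_filter]
    by_contra hcon
    have c1 : ¬ ((S.card : ℝ) < Real.log N / 10) := fun h => hcon (Or.inl (Or.inl ⟨hS, h⟩))
    have c2 : ¬ (4 * Real.log N < (S.card : ℝ)) := fun h => hcon (Or.inl (Or.inr ⟨hS, h⟩))
    have c3 : ¬ ∃ t ∈ S, Real.log N / 1000 <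
        ((S.filter fun s => s.natDegree ≤ t.natDegree ∧
          (t.natDegree : ℝ) < 4 * Real.log N * s.natDegree).card : ℝ) :=
      fun h => hcon (Or.inr ⟨hS, h⟩)
    apply hT
    push Not at c1 c2 c3
    refine ⟨?_, fun t ht => ?_⟩
    · have : (n₁ : ℝ) ≤ (S.card : ℝ) := by linarith
      exact_mod_cast this
    · have h4 := c3 t ht
      have h5 : (S.filter fun s => s.natDegree ≤ t.natDegree ∧
          t.natDegree < S.card * s.natDegree).card ≤
          (S.filter fun s => s.natDegree ≤ t.natDegree ∧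
          (t.natDegree : ℝ) < 4 * Real.log N * s.natDegree).card := by
        apply Finset.card_le_card
        intro s hs
        rw [Finset.mem_filter] at hs ⊢
        refine ⟨hs.1, hs.2.1, ?_⟩
        have h6 : (t.natDegree : ℝ) < (S.card : ℝ) * (s.natDegree : ℝ) := by
          exact_mod_cast hs.2.2
        have h7 : (S.card : ℝ) * (s.natDegree : ℝ) ≤ 4 * Real.log N * (s.natDegree : ℝ) :=
          mul_le_mul_of_nonneg_right c2 (Nat.cast_nonneg _)
        linarith
      have h6 : ((S.filter fun s => s.natDegree ≤ t.natDegree ∧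
          t.natDegree < S.card * s.natDegree).card : ℝ) ≤
          ((S.filter fun s => s.natDegree ≤ t.natDegree ∧
          (t.natDegree : ℝ) < 4 * Real.log N * s.natDegree).card : ℝ) := by
        exact_mod_cast h5
      have h7 : (100 : ℝ) * ((S.filter fun s => s.natDegree ≤ t.natDegree ∧
          t.natDegree < S.card * s.natDegree).card : ℝ) ≤ (S.card : ℝ) := by
        linarith
      exact_mod_cast h7
  have hc := (Finset.card_le_card hsub).trans ((Finset.card_union_le _ _).trans
    (Nat.add_le_add_right (Finset.card_union_le _ _) _))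
  have hc' : (((Sub k S₀ N).filter fun S => ¬ Typ n₁ S).card : ℝ) ≤
      ((((Sub k S₀ N).filter fun S => (S.card : ℝ) < Real.log N / 10).card : ℝ) +
        (((Sub k S₀ N).filter fun S => 4 * Real.log N < (S.card : ℝ)).card : ℝ)) +
      (((Sub k S₀ N).filter fun S => ∃ t ∈ S, Real.log N / 1000 <
        ((S.filter fun s => s.natDegree ≤ t.natDegree ∧
          (t.natDegree : ℝ) < 4 * Real.log N * s.natDegree).card : ℝ)).card : ℝ) := by
    exact_mod_cast hc
  have hq : (0 : ℝ) ≤ qq k ^ N := by
    unfold qq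
    positivity
  calc _ ≤ _ := hc'
    _ ≤ (ε / 3 * qq k ^ N + ε / 3 * qq k ^ N) + ε / 3 * qq k ^ N := by
      exact add_le_add (add_le_add e1 e2) e3
    _ = ε * qq k ^ N := by ring

end Pool.Agent.L0h89.UY
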